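import Pool.Agent.helper51.RMX.Spec

/-! Row rmx:CYX (MP_24e2e7_nt): one prime above 2 -/

set_option autoImplicit false

namespace Pool.Agent.RMX

open Pool.Agent.RB NumberField IsDedekindDomain Module
open scoped nonZeroDivisors Real Classical IsMulCommutative

theorem CYX_hom (N : ℕ) [NeZero N] (K L : Type) [Field K] [NumberField K]
    [IsCyclotomicExtension {N} ℚ K] [Field L] [CharZero L] (η : K)
    (hη : IsPrimitiveRoot η N) (μ : L) (hμ : IsPrimitiveRoot μ N) :
    ∃ φ : K →ₐ[ℚ] L, φ η = μ := by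
  have h1 : Polynomial.cyclotomic N ℚ = minpoly ℚ η :=
    hη.minpoly_eq_cyclotomic_of_irreducible (Polynomial.cyclotomic.irreducible_rat (NeZero.pos N))
  have h2 : Polynomial.aeval μ (minpoly ℚ η) = 0 := by
    rw [← h1, Polynomial.aeval_def, Polynomial.eval₂_eq_eval_map, Polynomial.map_cyclotomic]
    exact hμ.isRoot_cyclotomic (NeZero.pos N)
  refine ⟨(hη.powerBasis ℚ).lift μ (by rw [IsPrimitiveRoot.powerBasis_gen ℚ hη]; exact h2), ?_⟩
  have h3 := PowerBasis.lift_gen (hη.powerBasis ℚ) μ (by rw [IsPrimitiveRoot.powerBasis_gen ℚ hη]; exact h2)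
  have h4 := IsPrimitiveRoot.powerBasis_gen ℚ hη
  calc _ = ((hη.powerBasis ℚ).lift μ _) (hη.powerBasis ℚ).gen := congrArg _ h4.symm
    _ = μ := h3

theorem CYX_one (a j q : ℕ) (ha : 1 ≤ a) (hq : q.Prime) (hq2 : q ≠ 2)
    (hord : orderOf (2 : ZMod (q ^ j)) = Nat.totient (q ^ j)) (K : Type) [Field K] [NumberField K]
    [IsCyclotomicExtension {2 ^ a * q ^ j} ℚ K] (P Q : HOS K) (hP : (2 : 𝓞 K) ∈ P.asIdeal)
    (hQ : (2 : 𝓞 K) ∈ Q.asIdeal) : P = Q := by
  have hN : 2 ^ a * q ^ j ≠ 0 := by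
    have := hq.pos
    positivity
  have : NeZero (2 ^ a * q ^ j) := ⟨hN⟩
  have hG : IsGalois ℚ K := IsCyclotomicExtension.isGalois {2 ^ a * q ^ j} ℚ K
  have : Fact (Nat.Prime 2) := ⟨Nat.prime_two⟩
  have hn : 2 ^ a * q ^ j = 2 ^ ((a - 1) + 1) * q ^ j := by
    rw [Nat.sub_add_cancel ha]
  have hm : ¬ 2 ∣ q ^ j := by
    intro h
    have h1 := Nat.prime_two.dvd_of_dvd_pow h
    exact hq2 ((Nat.prime_dvd_prime_iff_eq Nat.prime_two hq).1 h1).symm
  have e1 := IsCyclotomicExtension.Rat.inertiaDegIn_eq (p := 2) (2 ^ a * q ^ j) K hn hm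
  have e2 := IsCyclotomicExtension.Rat.ramificationIdxIn_eq (p := 2) (2 ^ a * q ^ j) K hn hm
  have hp2 : (Ideal.span {((2 : ℕ) : ℤ)}).IsPrime := by
    rw [Ideal.span_singleton_prime (by norm_num)]
    exact_mod_cast Int.prime_two
  have h_main := Ideal.ncard_primesOver_mul_ramificationIdxIn_mul_inertiaDegIn
    (Ideal.span {((2 : ℕ) : ℤ)}) (𝓞 K) Gal(K/ℚ)
  rw [e1, e2] at h_main
  have hcard : Nat.card Gal(K/ℚ) = 2 ^ (a - 1) * Nat.totient (q ^ j) := by
    rw [IsGalois.card_aut_eq_finrank, IsCyclotomicExtension.finrank K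
      (Polynomial.cyclotomic.irreducible_rat (NeZero.pos (2 ^ a * q ^ j)))]
    rw [Nat.totient_mul, Nat.totient_prime_pow Nat.prime_two (by omega)]
    · norm_num
    · exact Nat.Coprime.pow_left a (by rwa [Nat.prime_two.coprime_iff_not_dvd])
  rw [hcard] at h_main
  have hone : ((Ideal.span {((2 : ℕ) : ℤ)}).primesOver (𝓞 K)).ncard = 1 := by
    have h3 : ((2 : ℕ) : ZMod (q ^ j)) = 2 := by norm_num
    rw [h3, hord] at h_main
    have h4 : 0 < 2 ^ (a - 1) * Nat.totient (q ^ j) := by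
      have : 0 < Nat.totient (q ^ j) := Nat.totient_pos.2 (by have := hq.pos; positivity)
      positivity
    have h5 : ((Ideal.span {((2 : ℕ) : ℤ)}).primesOver (𝓞 K)).ncard *
        (2 ^ (a - 1) * Nat.totient (q ^ j)) = 1 * (2 ^ (a - 1) * Nat.totient (q ^ j)) := by
      rw [one_mul]
      simpa using h_main
    exact Nat.eq_of_mul_eq_mul_right h4 h5
  have hover : ∀ P : HOS K, (2 : 𝓞 K) ∈ P.asIdeal →
      P.asIdeal ∈ (Ideal.span {((2 : ℕ) : ℤ)}).primesOver (𝓞 K) := by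
    intro P hP
    refine ⟨P.isPrime, ⟨?_⟩⟩
    have hmax : (Ideal.span {((2 : ℕ) : ℤ)}).IsMaximal :=
      hp2.isMaximal (by
        intro h
        rw [Ideal.span_singleton_eq_bot] at h
        norm_num at h)
    apply hmax.eq_of_le
    · intro h
      have h6 : (1 : ℤ) ∈ P.asIdeal.under ℤ := by rw [h]; trivial
      rw [Ideal.mem_comap, map_one] at h6
      exact P.isPrime.ne_top ((Ideal.eq_top_iff_one _).2 h6)
    · rw [Ideal.span_singleton_le_iff_mem, Ideal.mem_comap]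
      simpa using hP
  have h7 := Set.ncard_eq_one.1 hone
  obtain ⟨I, hI⟩ := h7
  have hP1 := hover P hP
  have hQ1 := hover Q hQ
  rw [hI, Set.mem_singleton_iff] at hP1 hQ1
  exact HeightOneSpectrum.ext (hP1.trans hQ1.symm)

theorem CYX_odd (K : Type) [Field K] [NumberField K] (Q : HOS K) (hQ : (2 : 𝓞 K) ∈ Q.asIdeal)
    (d : ℕ) (hd : Odd d) : Q.valuation K (d : K) = 1 := by
  have h1 : (d : K) = algebraMap (𝓞 K) K (d : 𝓞 K) := by simp
  rw [h1, HeightOneSpectrum.valuation_of_algebraMap]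
  apply le_antisymm (Q.intValuation_le_one _)
  rw [← not_lt, HeightOneSpectrum.intValuation_lt_one_iff_mem]
  intro h
  obtain ⟨k, rfl⟩ := hd
  apply Q.isPrime.ne_top
  rw [Ideal.eq_top_iff_one]
  have h2 : (1 : 𝓞 K) = ((2 * k + 1 : ℕ) : 𝓞 K) - (k : 𝓞 K) * 2 := by push_cast; ring
  rw [h2]
  exact Q.asIdeal.sub_mem h (Q.asIdeal.mul_mem_left _ hQ)

theorem CYX_field (a j q : ℕ) (ha : 1 ≤ a) (hq : q.Prime) (hq2 : q ≠ 2)
    (hord : orderOf (2 : ZMod (q ^ j)) = Nat.totient (q ^ j)) (K : Type) [Field K] [NumberField K]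
    [IsCyclotomicExtension {2 ^ a * q ^ j} ℚ K] (η : K) (hη : IsPrimitiveRoot η (2 ^ a * q ^ j))
    (p : Polynomial ℚ) (z : ℤ) (d : ℕ) (hd : Odd d)
    (h : (d : K) * ∏ i ∈ (Finset.range (2 ^ a * q ^ j)).filter
      (fun i => Nat.Coprime i (2 ^ a * q ^ j)), Polynomial.aeval (η ^ i) p = (z : K)) :
    ∃ d' : ℕ, Odd d' ∧ IsIntegral ℤ ((d' : K) * Polynomial.aeval η p) := by
  have hN : 2 ^ a * q ^ j ≠ 0 := by
    have := hq.pos
    positivity
  have : NeZero (2 ^ a * q ^ j) := ⟨hN⟩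
  have hN1 : 1 < 2 ^ a * q ^ j := by
    have h1 : 2 ≤ 2 ^ a := by
      calc 2 = 2 ^ 1 := by norm_num
        _ ≤ 2 ^ a := Nat.pow_le_pow_right (by norm_num) ha
    have h2 : 1 ≤ q ^ j := Nat.one_le_pow _ _ hq.pos
    nlinarith
  obtain ⟨α, hα⟩ : ∃ α, α = Polynomial.aeval η p := ⟨_, rfl⟩
  -- the valuation of alpha at the prime above 2
  have hval : ∀ Q : HOS K, (2 : 𝓞 K) ∈ Q.asIdeal → Q.valuation K α ≤ 1 := by
    intro Q hQ
    have hσ : ∀ (σ : K ≃+* K) (x : K), Q.valuation K (σ x) = Q.valuation K x := by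
      intro σ x
      have h1 : act σ Q = Q := by
        apply CYX_one a j q ha hq hq2 hord K _ _ _ hQ
        show (RingOfIntegers.mapRingEquiv σ).symm 2 ∈ Q.asIdeal
        rw [map_ofNat]
        exact hQ
      have h2 := ORD_act_val σ Q x
      rwa [h1] at h2
    have hi : ∀ i ∈ (Finset.range (2 ^ a * q ^ j)).filter
        (fun i => Nat.Coprime i (2 ^ a * q ^ j)),
        Q.valuation K (Polynomial.aeval (η ^ i) p) = Q.valuation K α := by
      intro i hi
      rw [Finset.mem_filter] at hi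
      obtain ⟨σ, hσi⟩ := CYX_hom (2 ^ a * q ^ j) K K η hη (η ^ i) (hη.pow_of_coprime i hi.2)
      have hb : Function.Bijective σ := AlgHom.bijective σ
      have h3 := hσ (AlgEquiv.ofBijective σ hb).toRingEquiv α
      have h4 : (AlgEquiv.ofBijective σ hb).toRingEquiv α = Polynomial.aeval (η ^ i) p := by
        show σ α = _
        rw [hα, ← Polynomial.aeval_algHom_apply, hσi]
      rw [h4] at h3
      exact h3
    have h5 := congrArg (Q.valuation K) h
    rw [map_mul, map_prod, Finset.prod_congr rfl hi, Finset.prod_const, CYX_odd K Q hQ d hd,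
      one_mul] at h5
    have hz : Q.valuation K (z : K) ≤ 1 := by
      have h1 : (z : K) = algebraMap (𝓞 K) K (z : 𝓞 K) := by simp
      rw [h1]
      exact Q.valuation_le_one _
    rw [← h5] at hz
    have hc : ((Finset.range (2 ^ a * q ^ j)).filter
        (fun i => Nat.Coprime i (2 ^ a * q ^ j))).card ≠ 0 := by
      apply Finset.card_ne_zero_of_mem (a := 1)
      rw [Finset.mem_filter, Finset.mem_range]
      exact ⟨hN1, Nat.coprime_one_left _⟩
    exact (pow_le_one_iff hc).1 hz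
  -- clear denominators
  obtain ⟨y, hy0, hy'⟩ := exists_integral_multiples ℤ ℚ ({α} : Finset K)
  have hy := hy' α (Finset.mem_singleton_self α)
  obtain ⟨s, d', hd', hsd⟩ := Nat.exists_eq_two_pow_mul_odd (Int.natAbs_ne_zero.2 hy0)
  have hint : IsIntegral ℤ ((2 : K) ^ s * ((d' : K) * α)) := by
    have h1 : (2 : K) ^ s * ((d' : K) * α) = (y.natAbs : K) * α := by
      rw [hsd]
      push_cast
      ring
    rw [h1]
    rcases Int.natAbs_eq y with h2 | h2
    · have h3 : (y.natAbs : K) * α = y • α := by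
        rw [zsmul_eq_mul]
        have h4 : ((y : ℤ) : K) = ((y.natAbs : ℤ) : K) := congrArg _ h2
        rw [h4, Int.cast_natCast]
      rw [h3]
      exact hy
    · have h3 : (y.natAbs : K) * α = -(y • α) := by
        rw [zsmul_eq_mul]
        have h4 : ((y : ℤ) : K) = ((-(y.natAbs : ℤ) : ℤ) : K) := congrArg _ h2
        rw [h4, Int.cast_neg, Int.cast_natCast]
        ring
      rw [h3]
      exact hy.neg
  refine ⟨d', hd', ?_⟩
  rw [← hα]
  have hle : ∀ Q : HOS K, Q.valuation K ((d' : K) * α) ≤ 1 := by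
    intro Q
    by_cases hQ : (2 : 𝓞 K) ∈ Q.asIdeal
    · rw [map_mul, CYX_odd K Q hQ d' hd', one_mul]
      exact hval Q hQ
    · have h2 : Q.valuation K (2 : K) = 1 := by
        have h1 : (2 : K) = algebraMap (𝓞 K) K (2 : 𝓞 K) := (map_ofNat _ 2).symm
        rw [h1, HeightOneSpectrum.valuation_of_algebraMap]
        apply le_antisymm (Q.intValuation_le_one _)
        rw [← not_lt, HeightOneSpectrum.intValuation_lt_one_iff_mem]
        exact hQ
      have h3 : Q.valuation K ((2 : K) ^ s * ((d' : K) * α)) ≤ 1 := by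
        have h4 : (2 : K) ^ s * ((d' : K) * α) = algebraMap (𝓞 K) K ⟨_, hint⟩ := rfl
        rw [h4]
        exact Q.valuation_le_one _
      rw [map_mul, map_pow, h2, one_pow, one_mul] at h3
      exact h3
  obtain ⟨r, hr⟩ := HeightOneSpectrum.mem_integers_of_valuation_le_one K _ hle
  rw [← hr]
  exact r.2

theorem CYX : CYX_stmt := by
  intro a j q ζ ha hq hq2 hord hζ p z d hd h
  have hN : 2 ^ a * q ^ j ≠ 0 := by
    have := hq.pos
    positivity
  have : NeZero (2 ^ a * q ^ j) := ⟨hN⟩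
  have : NeZero ((2 ^ a * q ^ j : ℕ) : ℚ) := ⟨by exact_mod_cast hN⟩
  have : IsCyclotomicExtension {2 ^ a * q ^ j} ℚ (CyclotomicField (2 ^ a * q ^ j) ℚ) :=
    CyclotomicField.isCyclotomicExtension _ _
  obtain ⟨φ, hφ⟩ := CYX_hom (2 ^ a * q ^ j) (CyclotomicField (2 ^ a * q ^ j) ℚ) ℂ
    (IsCyclotomicExtension.zeta (2 ^ a * q ^ j) ℚ _)
    (IsCyclotomicExtension.zeta_spec (2 ^ a * q ^ j) ℚ _) ζ hζ
  have h1 : ∀ i : ℕ, φ (Polynomial.aeval
      (IsCyclotomicExtension.zeta (2 ^ a * q ^ j) ℚ (CyclotomicField (2 ^ a * q ^ j) ℚ) ^ i) p) =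
      Polynomial.aeval (ζ ^ i) p := by
    intro i
    rw [← Polynomial.aeval_algHom_apply, map_pow, hφ]
  obtain ⟨d', hd', hint⟩ := CYX_field a j q ha hq hq2 hord (CyclotomicField (2 ^ a * q ^ j) ℚ)
    (IsCyclotomicExtension.zeta (2 ^ a * q ^ j) ℚ _)
    (IsCyclotomicExtension.zeta_spec (2 ^ a * q ^ j) ℚ _) p z d hd (by
      apply φ.injective
      rw [map_mul, map_prod, map_natCast, map_intCast, ← h]
      refine congrArg _ (Finset.prod_congr rfl fun i _ => h1 i))
  refine ⟨d', hd', ?_⟩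
  have h2 := hint.map (φ.toRingHom.toIntAlgHom)
  have h3 : φ.toRingHom.toIntAlgHom ((d' : CyclotomicField (2 ^ a * q ^ j) ℚ) *
      Polynomial.aeval (IsCyclotomicExtension.zeta (2 ^ a * q ^ j) ℚ _) p) =
      (d' : ℂ) * Polynomial.aeval ζ p := by
    show φ _ = _
    have h4 := h1 1
    rw [pow_one, pow_one] at h4
    rw [map_mul, map_natCast, h4]
  rw [h3] at h2
  exact h2

end Pool.Agent.RMX
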