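import Pool.Agent.helper51.RMX.Spec

/-! Row rmx:EBX (MP_24e2e7_nt): an integral basis -/

set_option autoImplicit false

namespace Pool.Agent.RMX

open Pool.Agent.RB NumberField IsDedekindDomain Module
open scoped nonZeroDivisors Real Classical IsMulCommutative

/-- integral vectors independent over the integers are independent over the complex numbers -/
theorem EBX_indep {G : Type} [Group G] {ι : Type} [Fintype ι]
    (w : ι → MonoidAlgebra ℤ G) (hw : LinearIndependent ℤ w) (c : ι → ℂ)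
    (hc : ∑ i, c i • zc (w i) = 0) : ∀ i, c i = 0 := by
  -- the rational vectors
  have hq : LinearIndependent ℤ (fun i => fun σ : G => ((w i).coeff σ : ℚ)) := by
    rw [Fintype.linearIndependent_iff] at hw ⊢
    intro g hg
    apply hw g
    ext σ
    have h1 := congrFun hg σ
    rw [Finset.sum_apply] at h1
    have h2 : ((∑ i, g i * (w i).coeff σ : ℤ) : ℚ) = 0 := by
      push_cast
      rw [Pi.zero_apply] at h1
      rw [← h1]
      refine Finset.sum_congr rfl fun i _ => ?_
      rw [Pi.smul_apply, zsmul_eq_mul]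
    have h3 : ∑ i, g i * (w i).coeff σ = 0 := by exact_mod_cast h2
    rw [MonoidAlgebra.coeff_sum, Finsupp.finsetSum_apply]
    simp only [MonoidAlgebra.coeff_smul, Finsupp.smul_apply, smul_eq_mul]
    rw [h3]
    rfl
  have hq2 := (LinearIndependent.iff_fractionRing ℤ ℚ).1 hq
  rw [Fintype.linearIndependent_iff] at hq2
  intro i
  rw [← Module.forall_dual_apply_eq_zero_iff ℚ (c i)]
  intro φ
  apply hq2 (fun i => φ (c i))
  funext σ
  have h1 := congrArg (fun z : MonoidAlgebra ℂ G => z.coeff σ) hc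
  simp only [MonoidAlgebra.coeff_sum, Finsupp.finsetSum_apply, MonoidAlgebra.coeff_smul,
    Finsupp.smul_apply, smul_eq_mul, MonoidAlgebra.coeff_zero, Finsupp.coe_zero,
    Pi.zero_apply] at h1
  have h5 : ∀ i, (zc (w i)).coeff σ = ((w i).coeff σ : ℂ) := fun i => by simp [zc]
  simp only [h5] at h1
  have h2 := congrArg φ h1
  have h6 : ∀ (z : ℂ) (m : ℤ), φ (z * (m : ℂ)) = φ z * (m : ℚ) := by
    intro z m
    have : z * (m : ℂ) = (m : ℚ) • z := by
      rw [Rat.smul_def]
      push_cast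
      ring
    rw [this, map_smul, smul_eq_mul]
    ring
  rw [map_sum, map_zero] at h2
  rw [Finset.sum_apply, Pi.zero_apply, ← h2]
  refine Finset.sum_congr rfl fun i _ => ?_
  rw [h6, Pi.smul_apply, smul_eq_mul]

theorem EBX : EBX_stmt := by
  intro G _ _ X ε N hN h1 h2
  let _ : Fintype G := Fintype.ofFinite G
  -- the lattice
  obtain ⟨Λ, hΛ⟩ : ∃ Λ : Submodule ℤ (MonoidAlgebra ℤ G), ∀ x, x ∈ Λ ↔ x ∈ ElX X :=
    ⟨(ElX X).toIntSubmodule, fun x => Iff.rfl⟩
  have hmem : ∀ x, x ∈ ElX X → zc x ∈ ECX X := by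
    intro x hx ψ hψ
    rw [DET_evC]
    exact hx ψ hψ
  obtain ⟨zL, hzL⟩ : ∃ zL : Λ →+ ECX X, ∀ x : Λ, ((zL x : ECX X) : MonoidAlgebra ℂ G) = zc (x : MonoidAlgebra ℤ G) := by
    refine ⟨⟨⟨fun x => ⟨zc (x : MonoidAlgebra ℤ G), hmem _ ((hΛ _).1 x.2)⟩, ?_⟩, ?_⟩, fun x => rfl⟩
    · apply Subtype.ext
      exact map_zero _
    · intro x y
      apply Subtype.ext
      exact map_add _ _ _
  obtain ⟨b0⟩ : Nonempty (Basis (Module.Free.ChooseBasisIndex ℤ Λ) ℤ Λ) :=
    ⟨Module.Free.chooseBasis ℤ Λ⟩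
  have hw : LinearIndependent ℤ (fun i => ((b0 i : Λ) : MonoidAlgebra ℤ G)) :=
    b0.linearIndependent.map' Λ.subtype (Submodule.ker_subtype Λ)
  have hv : LinearIndependent ℂ (fun i => zL (b0 i)) := by
    rw [Fintype.linearIndependent_iff]
    intro c hc
    apply EBX_indep _ hw c
    have h3 := congrArg (fun z : ECX X => (z : MonoidAlgebra ℂ G)) hc
    simp only [Submodule.coe_sum, Submodule.coe_smul, hzL, Submodule.coe_zero] at h3
    exact h3
  have hclo : AddSubgroup.closure (Set.range fun i => zL (b0 i)) = zL.range := by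
    have h3 : (Set.range fun i => zL (b0 i)) = zL '' Set.range b0 := by
      rw [← Set.range_comp]
      rfl
    rw [h3, ← AddMonoidHom.map_closure, AddMonoidHom.range_eq_map]
    have h4 : AddSubgroup.closure (Set.range b0) = ⊤ := by
      rw [← Submodule.span_int_eq_addSubgroupClosure, b0.span_eq]
      rfl
    rw [h4]
  have hcs : ∀ x : Λ, zL x ∈ Submodule.span ℂ (Set.range fun i => zL (b0 i)) := by
    intro x
    have h3 : zL x ∈ AddSubgroup.closure (Set.range fun i => zL (b0 i)) := by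
      rw [hclo]
      exact ⟨x, rfl⟩
    have h4 : AddSubgroup.closure (Set.range fun i => zL (b0 i)) ≤
        (Submodule.span ℂ (Set.range fun i => zL (b0 i))).toAddSubgroup := by
      rw [AddSubgroup.closure_le]
      exact Submodule.subset_span
    exact h4 h3
  have hN' : (N : ℂ) ≠ 0 := by exact_mod_cast hN
  have hεm : ∀ σ : G, ε * MonoidAlgebra.single σ 1 ∈ Λ := by
    intro σ
    rw [hΛ]
    intro ψ hψ
    rw [map_mul, h2 ψ hψ, zero_mul]
  have hspan : ⊤ ≤ Submodule.span ℂ (Set.range fun i => zL (b0 i)) := by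
    rintro y -
    have hy1 : zc ε * (y : MonoidAlgebra ℂ G) = (N : ℂ) • (y : MonoidAlgebra ℂ G) := by
      rw [← sub_eq_zero]
      apply MDT_inj
      intro ψ
      rw [map_sub, map_mul, MDT_smul, DET_evC]
      by_cases hψ : ψ ∈ X
      · rw [h1 ψ hψ, sub_self]
      · rw [y.2 ψ hψ, mul_zero, mul_zero, sub_zero]
    have hy2 : (y : MonoidAlgebra ℂ G) = ∑ σ : G, ((y : MonoidAlgebra ℂ G).coeff σ) •
        MonoidAlgebra.single σ (1 : ℂ) := by
      ext τ
      rw [MonoidAlgebra.coeff_sum, Finsupp.finsetSum_apply]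
      simp only [MonoidAlgebra.coeff_smul, Finsupp.smul_apply, MonoidAlgebra.coeff_single,
        Finsupp.single_apply, smul_eq_mul, mul_ite, mul_one, mul_zero, Finset.sum_ite_eq',
        Finset.mem_univ, if_true]
    have hy3 : y = ∑ σ : G, ((N : ℂ)⁻¹ * (y : MonoidAlgebra ℂ G).coeff σ) • zL ⟨_, hεm σ⟩ := by
      apply Subtype.ext
      simp only [Submodule.coe_sum, Submodule.coe_smul, hzL, map_mul, DET_zc_single]
      have h5 : ∀ σ : G, ((N : ℂ)⁻¹ * (y : MonoidAlgebra ℂ G).coeff σ) •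
          (zc ε * MonoidAlgebra.single σ (1 : ℂ)) = (N : ℂ)⁻¹ • (zc ε *
            (((y : MonoidAlgebra ℂ G).coeff σ) • MonoidAlgebra.single σ (1 : ℂ))) := by
        intro σ
        rw [mul_smul, mul_smul_comm]
      simp only [h5]
      rw [← Finset.smul_sum, ← Finset.mul_sum, ← hy2, hy1, smul_smul, inv_mul_cancel₀ hN',
        one_smul]
    rw [hy3]
    exact Submodule.sum_mem _ fun σ _ => Submodule.smul_mem _ _ (hcs _)
  refine ⟨Module.Free.ChooseBasisIndex ℤ Λ, inferInstance, Basis.mk hv hspan, ?_⟩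
  intro y
  rw [Basis.coe_mk, hclo]
  constructor
  · rintro ⟨x, rfl⟩
    exact ⟨x, (hΛ _).1 x.2, (hzL x).symm⟩
  · rintro ⟨x, hx, hxy⟩
    refine ⟨⟨x, (hΛ x).2 hx⟩, ?_⟩
    apply Subtype.ext
    rw [hzL]
    exact hxy

end Pool.Agent.RMX
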