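import Pool.Agent.helper51.RMX.Spec

/-! Row rmx:KPL (MP_24e2e7_nt): the maximal real subfield; adapted from
`Pool/Agent/helper6/RB/TWR.lean` (helper6) -/

set_option autoImplicit false

namespace Pool.Agent.RMX

open Pool.Agent.RB NumberField IsDedekindDomain Module
open scoped nonZeroDivisors Real Classical IsMulCommutative

theorem KPL : KPL_stmt := by
  intro F K _ _ _ _ _ _ _ _ c hc
  have hcc : c * c = 1 := by
    ext x
    change c (c x) = x
    rw [hc, hc]
    exact IsCMField.complexConj_apply_apply K x
  have hc1 : c ≠ 1 := by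
    intro h
    apply IsCMField.complexConj_ne_one K
    ext x
    rw [← hc, h]
    rfl
  have hcomm : ∀ a b : K ≃ₐ[F] K, a * b = b * a := fun a b => mul_comm a b
  have hcB : c ∉ (⊥ : Subgroup (K ≃ₐ[F] K)) := by
    rw [Subgroup.mem_bot]
    exact hc1
  obtain ⟨hPsi, hcard⟩ := TWR_group hcomm ⊥ c hcc hcB
  rw [bot_sup_eq] at hPsi hcard
  have hcard2 : Nat.card (Subgroup.zpowers c) = 2 := by
    rw [hcard, Subgroup.card_bot]
  have hodd : (odd c).card = (Subgroup.zpowers c).index := by
    rw [← hPsi]
    apply congrArg Finset.card
    ext ψ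
    simp only [odd, Psi, Finset.mem_filter, Finset.mem_univ, true_and]
    constructor
    · intro h
      refine ⟨fun b hb => ?_, h⟩
      rw [Subgroup.mem_bot] at hb
      rw [hb, map_one]
    · exact fun h => h.2
  have hfkK : finrank (IntermediateField.fixedField (Subgroup.zpowers c)) K =
      Nat.card (Subgroup.zpowers c) := IntermediateField.finrank_fixedField_eq_card _
  have i3 : Algebra.IsQuadraticExtension (IntermediateField.fixedField (Subgroup.zpowers c)) K :=
    ⟨by rw [hfkK, hcard2]⟩
  have hfixk : ∀ x : IntermediateField.fixedField (Subgroup.zpowers c), c (x : K) = x := by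
    intro x
    exact x.2 ⟨c, Subgroup.mem_zpowers c⟩
  have i4 : IsTotallyReal (IntermediateField.fixedField (Subgroup.zpowers c)) := by
    refine ⟨fun v => ?_⟩
    rw [InfinitePlace.isReal_iff, ComplexEmbedding.isReal_iff]
    ext x
    have h1 := ComplexEmbedding.lift_algebraMap_apply K v.embedding x
    have h2 : algebraMap (IntermediateField.fixedField (Subgroup.zpowers c)) K x = (x : K) :=
      rfl
    rw [h2] at h1
    change star (v.embedding x) = v.embedding x
    rw [← h1]
    have h3 := IsCMField.complexEmbedding_complexConj K (ComplexEmbedding.lift K v.embedding) (x : K)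
    rw [← hc, hfixk] at h3
    exact h3.symm
  refine ⟨IntermediateField.fixedField (Subgroup.zpowers c), inferInstance, inferInstance,
    inferInstance, inferInstance, inferInstance, inferInstance, i3, i4, ?_, hc1, ?_⟩
  · intro x
    exact hfixk x
  · rw [hodd]
    have h1 := finrank_mul_finrank ℚ F (IntermediateField.fixedField (Subgroup.zpowers c))
    rw [← h1]
    congr 1
    have h2 := finrank_mul_finrank F (IntermediateField.fixedField (Subgroup.zpowers c)) K
    rw [hfkK] at h2
    have h3 : finrank F K = Nat.card (K ≃ₐ[F] K) := (IsGalois.card_aut_eq_finrank F K).symm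
    have h4 := Subgroup.card_mul_index (Subgroup.zpowers c)
    rw [h3, ← h4, mul_comm] at h2
    have h5 : 0 < Nat.card (Subgroup.zpowers c) := Nat.card_pos
    exact Nat.eq_of_mul_eq_mul_left h5 h2

end Pool.Agent.RMX
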